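import Pool.Agent.DPS.Stmts

/-!
The Laplacian `Y` of the Johnson graph is symmetric.
-/

namespace Pool.Agent.DPS.H77

open Finset

theorem sw_sw {n k : ℕ} (a b : Fin n) (F : KS n k) : sw a b (sw a b F) = F := by
  apply Subtype.ext
  simp only [sw]
  rw [Finset.map_map]
  ext x
  simp

/-- the involution `sw a b` -/
def swE {n k : ℕ} (a b : Fin n) : KS n k ≃ KS n k where
  toFun := sw a b
  invFun := sw a b
  left_inv := sw_sw a b
  right_inv := sw_sw a b

theorem swap_sum {n k : ℕ} (a b : Fin n) (f g : KS n k → ℝ) :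
    ∑ F : KS n k, f (sw a b F) * g F = ∑ F : KS n k, f F * g (sw a b F) := by
  rw [← Equiv.sum_comp (swE a b) (fun F => f (sw a b F) * g F)]
  refine Finset.sum_congr rfl fun F _ => ?_
  show f (sw a b (sw a b F)) * g (sw a b F) = _
  rw [sw_sw]

theorem ipY {n k : ℕ} (f g : KS n k → ℝ) :
    ip (Y n k f) g = (1 / 2) * ∑ a : Fin n, ∑ b : Fin n,
      (∑ F : KS n k, f F * g F - ∑ F : KS n k, f (sw a b F) * g F) := by
  have h1 : ip (Y n k f) g = ∑ F : KS n k, (1 / 2) * ∑ a : Fin n, ∑ b : Fin n,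
      (f F * g F - f (sw a b F) * g F) := by
    refine Finset.sum_congr rfl fun F _ => ?_
    show (1 / 2) * (∑ a : Fin n, ∑ b : Fin n, (f F - f (sw a b F))) * g F = _
    rw [mul_assoc, Finset.sum_mul]
    refine congrArg _ (Finset.sum_congr rfl fun a _ => ?_)
    rw [Finset.sum_mul]
    refine Finset.sum_congr rfl fun b _ => ?_
    ring
  rw [h1, ← Finset.mul_sum, Finset.sum_comm]
  refine congrArg _ (Finset.sum_congr rfl fun a _ => ?_)
  rw [Finset.sum_comm]
  refine Finset.sum_congr rfl fun b _ => ?_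
  rw [Finset.sum_sub_distrib]

theorem sym : SYMStmt := by
  intro n k f g
  have h2 : ip f (Y n k g) = ip (Y n k g) f := by
    refine Finset.sum_congr rfl fun F _ => ?_
    ring
  rw [h2, ipY, ipY]
  refine congrArg _ (Finset.sum_congr rfl fun a _ => Finset.sum_congr rfl fun b _ => ?_)
  rw [swap_sum a b f g]
  have h3 : ∑ F : KS n k, f F * g F = ∑ F : KS n k, g F * f F :=
    Finset.sum_congr rfl fun F _ => mul_comm _ _
  have h4 : ∑ F : KS n k, f F * g (sw a b F) = ∑ F : KS n k, g (sw a b F) * f F :=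
    Finset.sum_congr rfl fun F _ => mul_comm _ _
  rw [h3, h4]

end Pool.Agent.DPS.H77
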